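import Pool.Agent.Results.MP_8865d3_nt.EveryCover
import Pool.Agent.X174.WinRat

/-!
# Vojta's inequality at the points of degree `N` of every cover of degree `N`, over ALL rational points in cubes

Let `A` be the homogeneous coordinate ring of a normal variety with a finite morphism of degree `N` to `ℙⁿ` over `ℚ` (see
the starting result `EveryCover`), let `F_1, …, F_q` be components of the branch divisor of degrees `k_j` with `s_j` sheets,
`G ≠ 0` a form of degree `d`, `S` a finite set of primes and `κ < ∑ k_j (1 - s_j / N)`. There is `c > 0` such that for every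
sequence `v ≥ 1` of exponent of convergence at most `τ` (for `v_i = (i + 1) ^ a` this is `1 / a`, for `v_i = b ^ i` it is
`0`) and every `ρ < 1`, outside a set of `y ∈ ℝ^(n + 1)` of Hausdorff dimension at most `(n + 1 - c + τ) / (1 - ρ)` the
following holds for all but finitely many `i`: at ALL points of degree `N` of the variety over ALL integral vectors `x` in
the cube with centre `y v_i` and side `2 v_i ^ ρ` one has `κ log v_i + m_S(G, x) ≤ d(K)`, `K` the residue field.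

The number of exceptions is from the starting result `EveryCover`.
-/

set_option autoImplicit false

open Filter

namespace Pool.Agent.Results.MP_8865d3_nt.CoversInCubes

open MvPolynomial
open EveryCover (SheetsLE FewCoincidences logDisc proximity)

/-- the exponent of convergence of the sequence `v` is at most `τ` -/
def ExpLe (v : ℕ → ℝ) (τ : ℝ) : Prop := ∀ t : ℝ, τ < t → Summable (fun n : ℕ => (v n) ^ (-t))

/-- `κ L + m_S(G, x) ≤ d(K)` for all points of degree `N` over the integral vector `x`, `K` the residue field -/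
def Vojta {n : ℕ} (A : Type) [CommRing A] [Algebra (MvPolynomial (Fin (n + 1)) ℚ) A] (N : ℕ)
    (G : MvPolynomial (Fin (n + 1)) ℤ) (d : ℕ) (S : Finset ℕ) (κ L : ℝ) (x : Fin (n + 1) → ℤ) : Prop :=
  ∀ (K : Type) [Field K] [NumberField K] (φ : A →+* K), Function.Surjective φ → Module.finrank ℚ K = N →
    (∀ i, φ (algebraMap (MvPolynomial (Fin (n + 1)) ℚ) A (X i)) = x i) →
    κ * L + proximity G d S x ≤ logDisc K

/-- **Theorem.** Let `A`, `N`, `F_j`, `k_j`, `s_j`, `G`, `d`, `S` and `κ < ∑ k_j (1 - s_j / N)` be as in `EveryCover`. There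
is `c > 0` such that for every sequence `v ≥ 1` of exponent of convergence at most `τ ≥ 0` and every `ρ < 1` there is a set
`E ⊂ ℝ^(n + 1)` of Hausdorff dimension at most `(n + 1 - c + τ) / (1 - ρ)` such that for each `y` outside `E`, for all but
finitely many `i`, for ALL integral vectors `x` with `|x_j - y_j v_i| ≤ v_i ^ ρ` and ALL points of degree `N` of the cover
over `x` the inequality `κ log v_i + m_S(G, x) ≤ d(K)` holds. The sequences `v_i = (i + 1) ^ a` and `v_i = b ^ i` have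
exponent of convergence at most `1 / a` and `0`. -/
theorem result :
    (∀ (n : ℕ) (A : Type) [CommRing A] [IsDomain A] [IsIntegrallyClosed A]
      [Algebra (MvPolynomial (Fin (n + 1)) ℚ) A] [FaithfulSMul (MvPolynomial (Fin (n + 1)) ℚ) A]
      [Module.Finite (MvPolynomial (Fin (n + 1)) ℚ) A]
      (N : ℕ), Module.finrank (MvPolynomial (Fin (n + 1)) ℚ) A = N →
      ∀ (q : ℕ) (F : Fin q → MvPolynomial (Fin (n + 1)) ℤ) (k s : Fin q → ℕ),
      (∀ j, (F j).IsHomogeneous (k j)) →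
      (∀ j, Irreducible (map (Int.castRingHom ℚ) (F j))) →
      (∀ i j, i ≠ j → ¬ Associated (map (Int.castRingHom ℚ) (F i)) (map (Int.castRingHom ℚ) (F j))) →
      (∀ j, k j ≤ 2 ∨ FewCoincidences (F j) (k j)) →
      (∀ j, s j ≤ N) → (∀ j, SheetsLE A (map (Int.castRingHom ℚ) (F j)) (s j)) →
      ∀ (G : MvPolynomial (Fin (n + 1)) ℤ) (d : ℕ), G.IsHomogeneous d → G ≠ 0 →
      ∀ (S : Finset ℕ), (∀ p ∈ S, p.Prime) →
      ∀ (κ : ℝ), κ < ∑ j, (k j : ℝ) * (1 - (s j : ℝ) / N) →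
      ∃ c : ℝ, 0 < c ∧ ∀ (v : ℕ → ℝ) (τ ρ : ℝ), (∀ i, 1 ≤ v i) → 0 ≤ τ → ExpLe v τ → ρ < 1 →
      ∃ E : Set (Fin (n + 1) → ℝ), dimH E ≤ ENNReal.ofReal (((n : ℝ) + 1 - c + τ) / (1 - ρ)) ∧
        ∀ y : Fin (n + 1) → ℝ, y ∉ E → ∃ i₀ : ℕ, ∀ i : ℕ, i₀ ≤ i →
          ∀ x : Fin (n + 1) → ℤ, (∀ j, |(x j : ℝ) - y j * v i| ≤ (v i) ^ ρ) →
            Vojta A N G d S κ (Real.log (v i)) x) ∧
    (∀ a : ℝ, 0 < a → ExpLe (fun n : ℕ => ((n : ℝ) + 1) ^ a) (1 / a)) ∧
    (∀ b : ℝ, 1 < b → ExpLe (fun n : ℕ => b ^ n) 0) := by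
  refine ⟨fun n A _ _ _ _ _ _ N hN q F k s hhom hirr hdist hfew hsN hs G d hG hG0 S hS κ hκ => ?_,
    fun κ hκ => Pool.Agent.Y854.GM.expLe_pow κ hκ, fun b hb => Pool.Agent.Y854.GM.expLe_geom b hb⟩
  obtain ⟨κ', hκ1, hκ2⟩ := exists_between hκ
  obtain ⟨c₀, hc₀, C, hC⟩ := EveryCover.result n A N hN q F k s hhom hirr hdist hfew hsN hs G d hG hG0 S hS κ' hκ2
  set c : ℝ := min c₀ (1 / 2) with hc
  have hca : c ≤ c₀ := min_le_left _ _
  have hcb : c ≤ 1 / 2 := min_le_right _ _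
  have hcp : 0 < c := lt_min hc₀ (by norm_num)
  have hn0 : (0 : ℝ) ≤ n := Nat.cast_nonneg n
  refine ⟨c, hcp, fun v τ ρ hv hτ hE hρ => ?_⟩
  have hvp : ∀ i, 0 < v i := fun i => lt_of_lt_of_le one_pos (hv i)
  have hvt : Tendsto v atTop atTop := Pool.Agent.Y854.GM.tendsto_of_expLe hvp hτ hE
  obtain ⟨E, hE1, hE2⟩ := Pool.Agent.X174.winFam (κ := Fin (n + 1)) (Q := Fin (n + 1) → ℤ)
    (fun x j => (x j : ℝ))
    (fun T => {x : Fin (n + 1) → ℤ | (∀ i, |x i| ≤ ((⌊T⌋₊ : ℕ) : ℤ)) ∧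
        ∃ (K : Type) (_ : Field K) (_ : NumberField K) (φ : A →+* K),
          Function.Surjective φ ∧ Module.finrank ℚ K = N ∧
          (∀ i, φ (algebraMap (MvPolynomial (Fin (n + 1)) ℚ) A (X i)) = x i) ∧
          logDisc K < κ' * Real.log ((⌊T⌋₊ : ℕ) : ℝ) + proximity G d S x})
    (s := (n : ℝ) + 1 - c) (C := |C|) (by linarith)
    (fun T hT => by
      have hT1 : 1 ≤ ⌊T⌋₊ := Nat.le_floor (by exact_mod_cast hT)
      have hT2 : (1 : ℝ) ≤ ((⌊T⌋₊ : ℕ) : ℝ) := by exact_mod_cast hT1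
      refine ⟨?_, (hC ⌊T⌋₊ hT1).trans ?_⟩
      · apply Set.Finite.subset (Set.Finite.pi' (ι := Fin (n + 1))
          (t := fun _ => Set.Icc (-((⌊T⌋₊ : ℕ) : ℤ)) ((⌊T⌋₊ : ℕ) : ℤ)) (fun _ => Set.finite_Icc _ _))
        rintro x ⟨hx, -⟩ j
        exact abs_le.1 (hx j)
      · calc C * ((⌊T⌋₊ : ℕ) : ℝ) ^ ((n : ℝ) + 1 - c₀) ≤ |C| * ((⌊T⌋₊ : ℕ) : ℝ) ^ ((n : ℝ) + 1 - c) :=
              mul_le_mul (le_abs_self C) (Real.rpow_le_rpow_of_exponent_le hT2 (by linarith))
                (Real.rpow_nonneg (Nat.cast_nonneg _) _) (abs_nonneg C)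
          _ ≤ |C| * T ^ ((n : ℝ) + 1 - c) := mul_le_mul_of_nonneg_left
              (Real.rpow_le_rpow (Nat.cast_nonneg _) (Nat.floor_le (by linarith)) (by linarith)) (abs_nonneg C))
    hv hτ hE hρ
  refine ⟨E, hE1, fun y hy => ?_⟩
  obtain ⟨R, hR, hRc⟩ := Pool.Agent.X174.le_of_cube y
  obtain ⟨i₁, hi₁⟩ := hE2 y hy R hR
  have hR1 : (1 : ℝ) ≤ R := by exact_mod_cast hR
  -- eventually `(κ' - κ) log v ≥ |κ'| log (2 R)` and `v ≥ 2`
  have hlog : Tendsto (fun i => Real.log (v i)) atTop atTop := Real.tendsto_log_atTop.comp hvt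
  obtain ⟨i₂, hi₂⟩ := ((hlog.eventually_ge_atTop (|κ'| * Real.log (2 * R) / (κ' - κ))).and
    (hvt.eventually_ge_atTop 2)).exists_forall_of_atTop
  refine ⟨max i₁ i₂, fun i hi x hx K _ _ φ hφ hK hφx => ?_⟩
  obtain ⟨k1, k2⟩ := hi₂ i ((le_max_right _ _).trans hi)
  by_contra hcon
  push Not at hcon
  have hvi := hvp i
  have h3 := hRc (fun j => (x j : ℝ)) (v i) ρ (hv i) hρ hx
  refine hi₁ i ((le_max_left _ _).trans hi) x hx ⟨fun j => ?_, K, inferInstance, inferInstance, φ, hφ, hK, hφx,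
    hcon.trans_le ?_⟩
  · have h4 : (((x j).natAbs : ℕ) : ℝ) ≤ (R : ℝ) * v i := by
      rw [Nat.cast_natAbs, Int.cast_abs]
      exact h3 j
    rw [Int.abs_eq_natAbs]
    exact_mod_cast Nat.le_floor h4
  · have hB1 : ((⌊(R : ℝ) * v i⌋₊ : ℕ) : ℝ) ≤ R * v i := Nat.floor_le (by positivity)
    have hB2 : v i / 2 ≤ ((⌊(R : ℝ) * v i⌋₊ : ℕ) : ℝ) := by
      have := Nat.lt_floor_add_one ((R : ℝ) * v i)
      nlinarith
    have hB0 : (0 : ℝ) < ((⌊(R : ℝ) * v i⌋₊ : ℕ) : ℝ) := by linarith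
    have hl1 : Real.log ((⌊(R : ℝ) * v i⌋₊ : ℕ) : ℝ) ≤ Real.log (2 * R) + Real.log (v i) := by
      rw [← Real.log_mul (by positivity) hvi.ne']
      apply Real.log_le_log hB0
      nlinarith
    have hl2 : Real.log (v i) - Real.log (2 * R) ≤ Real.log ((⌊(R : ℝ) * v i⌋₊ : ℕ) : ℝ) := by
      rw [← Real.log_div hvi.ne' (by positivity)]
      apply Real.log_le_log (by positivity)
      refine le_trans ?_ hB2
      apply div_le_div_of_nonneg_left hvi.le (by norm_num)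
      linarith
    have hl3 : |Real.log ((⌊(R : ℝ) * v i⌋₊ : ℕ) : ℝ) - Real.log (v i)| ≤ Real.log (2 * R) := by
      rw [abs_le]
      constructor <;> linarith
    have hl4 : -(|κ'| * Real.log (2 * R)) ≤
        κ' * (Real.log ((⌊(R : ℝ) * v i⌋₊ : ℕ) : ℝ) - Real.log (v i)) := by
      have h5 : |κ' * (Real.log ((⌊(R : ℝ) * v i⌋₊ : ℕ) : ℝ) - Real.log (v i))| ≤ |κ'| * Real.log (2 * R) := by
        rw [abs_mul]
        exact mul_le_mul_of_nonneg_left hl3 (abs_nonneg _)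
      exact (abs_le.1 h5).1
    have hl5 : |κ'| * Real.log (2 * R) ≤ (κ' - κ) * Real.log (v i) := by
      rw [div_le_iff₀ (by linarith)] at k1
      linarith
    nlinarith

end Pool.Agent.Results.MP_8865d3_nt.CoversInCubes
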