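import Pool.Agent.Results.MP_8865d3_nt.KummerCovers
import Pool.Agent.X174.WinExc

/-!
# Vojta's inequality with multiplier ideals on Kummer covers of arrangements: ALL rational base points in cubes

Let `a_0, …, a_{r-1}` be nonzero linear forms in `n + 1` variables over `ℚ` which span the space of linear forms (an
arbitrary hyperplane arrangement), `0 ≤ κ ≤ 1/2`, and let `v ≥ 1` be a sequence of exponent of convergence at most `τ` (for
`v_i = (i + 1) ^ a` this is `1 / a`, for `v_i = b ^ i` it is `0`) and `ρ < 1`. Outside a set of `z ∈ ℝ^(n + 1)` of Hausdorff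
dimension at most `(n + 1 - κ + τ) / (1 - ρ)` the following holds for every real `c`, for all but finitely many `i`: over ALL
points `x = (x_0 : … : x_n)` off the arrangement with coprime integral coordinates in the cube with centre `z v_i` and side
`2 v_i ^ ρ`, for ALL `m ≥ 1`, ALL points `P` of the Kummer cover `X_m` above `x`, over any number field `L`, ALL monomial
ideals `I` and ALL finite sets `S` of primes,
`h_K(P) + ∑_{v ∈ S ∪ {∞}} (λ_I - λ_{I⁻})(P, v) + (n + 1 - κ) h(x) ≤ d(L) + ∑_{p ∈ S} log p + c`.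

The number of exceptions is from the starting result `KummerCovers`.
-/

set_option autoImplicit false

open NumberField

namespace Pool.Agent.Results.MP_8865d3_nt.KummerInCubes

open KummerCovers (lin height canonicalHeight proximity logDisc exceptional Flat)

/-- the exponent of convergence of the sequence `v` is at most `τ` -/
def ExpLe (v : ℕ → ℝ) (τ : ℝ) : Prop := ∀ t : ℝ, τ < t → Summable (fun n : ℕ => (v n) ^ (-t))

/-- **Theorem.** Let `n ≥ 1`, let `a_0, …, a_{r-1}` be nonzero linear forms over `ℚ` in `n + 1` variables which span, and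
`0 ≤ κ ≤ 1/2`. For every sequence `v ≥ 1` of exponent of convergence at most `τ ≥ 0` and every `ρ < 1` there is a set
`E ⊂ ℝ^(n + 1)` of Hausdorff dimension at most `(n + 1 - κ + τ) / (1 - ρ)` such that for each `z` outside `E` and every real
`c`, for all but finitely many `i`, for ALL nonzero vectors `x` of coprime integers with `|x_j - z_j v_i| ≤ v_i ^ ρ` and
`a_k(x) ≠ 0`, ALL `m ≥ 1`, ALL number fields `L`, ALL `y ∈ L^r` with `y_k ^ m = t a_k(x)`, `t ≠ 0` (the points of `X_m` over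
`L` above `x`), ALL monomial ideals `I` and ALL finite sets `S` of primes
`h_K(y) + ∑_{v ∈ S ∪ {∞}} (λ_I - λ_{I⁻})(y, v) + (n + 1 - κ) h(x) ≤ d(L) + ∑_{p ∈ S} log p + c`.
The sequences `v_i = (i + 1) ^ a` and `v_i = b ^ i` have exponent of convergence at most `1 / a` and `0`. -/
theorem result :
    (∀ (n r : ℕ), 1 ≤ n → ∀ a : Fin r → Fin (n + 1) → ℚ, (∀ i, a i ≠ 0) →
      Submodule.span ℚ (Set.range a) = ⊤ → ∀ κ : ℝ, 0 ≤ κ → κ ≤ 1 / 2 →
      ∀ (v : ℕ → ℝ) (τ ρ : ℝ), (∀ i, 1 ≤ v i) → 0 ≤ τ → ExpLe v τ → ρ < 1 →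
        ∃ E : Set (Fin (n + 1) → ℝ), dimH E ≤ ENNReal.ofReal (((n : ℝ) + 1 - κ + τ) / (1 - ρ)) ∧
          ∀ z : Fin (n + 1) → ℝ, z ∉ E → ∀ c : ℝ, ∃ i₀ : ℕ, ∀ i : ℕ, i₀ ≤ i →
            ∀ x : Fin (n + 1) → ℤ, Finset.univ.gcd x = 1 → (∀ j, |(x j : ℝ) - z j * v i| ≤ (v i) ^ ρ) →
              (∀ k, lin (a k) (fun j => (x j : ℚ)) ≠ 0) →
              ∀ (hx : (fun j => (x j : ℚ)) ≠ 0) (m : ℕ) (L : Type) [Field L] [NumberField L] (y : Fin r → L) (t : L)
                (I : Finset (Flat a → ℕ)) (S : Finset ℕ), 1 ≤ m → t ≠ 0 →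
                (∀ k, y k ^ m = t * ((lin (a k) (fun j => (x j : ℚ)) : ℚ) : L)) → I.Nonempty → (∀ p ∈ S, p.Prime) →
                canonicalHeight a (Projectivization.mk ℚ (fun j => (x j : ℚ)) hx) y + proximity S y I +
                    (n + 1 - κ) * height (Projectivization.mk ℚ (fun j => (x j : ℚ)) hx) ≤
                  logDisc L + ∑ p ∈ S, Real.log p + c) ∧
    (∀ a : ℝ, 0 < a → ExpLe (fun n : ℕ => ((n : ℝ) + 1) ^ a) (1 / a)) ∧
    (∀ b : ℝ, 1 < b → ExpLe (fun n : ℕ => b ^ n) 0) := by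
  refine ⟨fun n r hn a ha hspan κ hκ0 hκ v τ ρ hv hτ hv' hρ => ?_,
    fun κ hκ => Pool.Agent.Y854.GM.expLe_pow κ hκ, fun b hb => Pool.Agent.Y854.GM.expLe_geom b hb⟩
  have hs : 0 ≤ (n : ℝ) + 1 - κ := by
    have : (0 : ℝ) ≤ n := Nat.cast_nonneg n
    linarith
  obtain ⟨E, hE1, hE2⟩ := Pool.Agent.X174.winExc (fun c B => exceptional a κ c B) hs
    (by
      rintro c c' B hc P ⟨h1, h2, m, L, i1, i2, i3, y, t, E, S, hm, ht, hy, hE, hS, h3⟩
      exact ⟨h1, h2, m, L, i1, i2, i3, y, t, E, S, hm, ht, hy, hE, hS, by linarith⟩)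
    (by
      rintro c B B' P ⟨h1, h2, h3⟩ hB'
      refine ⟨h1, ?_, h3⟩
      unfold KummerCovers.height
      rw [Module.finrank_self, Nat.cast_one, div_one, Real.exp_log P.mulHeight_pos]
      exact hB')
    (by
      intro c ε hε
      obtain ⟨M, hM⟩ := KummerCovers.result ℚ n r hn a ha hspan κ c ε hκ0 hκ hε
      refine ⟨M, fun T hT => ?_⟩
      have h := hM T hT
      rw [Module.finrank_self, Nat.cast_one, one_mul] at h
      exact h) hv hτ hv' hρ
  refine ⟨E, hE1, fun z hz c => ?_⟩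
  obtain ⟨i₀, hi₀⟩ := hE2 z hz c
  refine ⟨i₀, fun i hi x hg hcube hlin hx m L _ _ y t I S hm ht hy hI hS => ?_⟩
  by_contra hcon
  push Not at hcon
  set P := Projectivization.mk ℚ (fun j => (x j : ℚ)) hx with hP
  obtain ⟨u, hu⟩ := Projectivization.exists_smul_eq_mk_rep ℚ (fun j => (x j : ℚ)) hx
  have hu0 : (u : ℚ) ≠ 0 := u.ne_zero
  have hlr : ∀ k, lin (a k) P.rep = (u : ℚ) * lin (a k) (fun j => (x j : ℚ)) := by
    intro k
    rw [hP, ← hu]
    unfold lin
    rw [Finset.mul_sum]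
    refine Finset.sum_congr rfl fun j _ => ?_
    show a k j * ((u : ℚ) * (x j : ℚ)) = (u : ℚ) * (a k j * (x j : ℚ))
    ring
  have huL : ((u : ℚ) : L) ≠ 0 := by exact_mod_cast hu0
  refine hi₀ i hi x hg hcube hx (Real.exp (KummerCovers.height P)) ?_
  refine ⟨fun k => by rw [hlr]; exact mul_ne_zero hu0 (hlin k), le_refl _, m, L, inferInstance, inferInstance,
    inferInstance, y, t / ((u : ℚ) : L), I, S, hm, div_ne_zero ht huL, fun k => ?_, hI, hS, hcon⟩
  rw [hy k, hlr k, eq_ratCast]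
  push_cast
  field_simp

end Pool.Agent.Results.MP_8865d3_nt.KummerInCubes
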