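import Pool.Agent.Results.MP_8865d3_nt.KummerCovers
import Pool.Agent.Results.MP_8865d3_nt.MonomialIdeals
import Pool.Agent.X123.ML.Base

/-!
# Vojta's conjecture with multiplier ideals above the points near almost all targets

Let `K` be a number field, `n ≥ 1` and `s` any map from `ℙ^n(K)` to a metric space, for example to `ℙ^n(K_v)`. Let
`τ > 0`. All points `z` outside a set of Hausdorff dimension at most `[K : ℚ] (n + 1 - κ) / τ`, `0 ≤ κ ≤ 1 / 2`, have
the following property: for ALL hyperplane arrangements over `K` which span, up to finitely many `x` above all rational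
points `x` with `|z - s(x)| ≤ H(x) ^ (-τ)`, at ALL points of ALL Kummer covers of the arrangement, for all monomial
ideals and all finite sets of primes, the inequality of Vojta's conjecture with multiplier ideal correction holds with
a gain of `(n + 1 - κ) h(x)`. The same is true for the Fermat covers of arrangements in general position, with the
exponents of the starting result `MonomialIdeals`.
-/

set_option autoImplicit false

open scoped ENNReal

namespace Pool.Agent.Results.MP_8865d3_nt.KummerNearTargets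

open NumberField IsDedekindDomain LinearAlgebra.Projectivization
open Pool.Agent.X123.ML MeasureTheory

/-- the exceptional points `x` for the Kummer covers, of any height, with `|z - s(x)| ≤ exp (- τ h(x))` -/
def KClose {K : Type} [Field K] [NumberField K] {n r : ℕ} {M : Type} [MetricSpace M]
    (s : ℙ K (Fin (n + 1) → K) → M) (a : Fin r → Fin (n + 1) → K) (κ c τ : ℝ) (z : M) :
    Set (ℙ K (Fin (n + 1) → K)) :=
  {x | (∃ B : ℝ, x ∈ KummerCovers.exceptional a κ c B) ∧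
    dist z (s x) ≤ Real.exp (-(τ * KummerCovers.height x))}

/-- the exceptional points `x` for the Fermat covers, of any height, with `|z - s(x)| ≤ exp (- τ h(x))` -/
def FClose {K : Type} [Field K] [NumberField K] {n q : ℕ} {M : Type} [MetricSpace M]
    (s : ℙ K (Fin (n + 1) → K) → M) (a : Fin q → Fin (n + 1) → K) (θ c τ : ℝ) (z : M) :
    Set (ℙ K (Fin (n + 1) → K)) :=
  {x | (∃ B : ℝ, x ∈ MonomialIdeals.exceptional a θ c B) ∧
    dist z (s x) ≤ Real.exp (-(τ * MonomialIdeals.baseHeight x))}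

variable {K : Type} [Field K] [NumberField K] {n : ℕ}

lemma height_nonneg (x : ℙ K (Fin (n + 1) → K)) : 0 ≤ KummerCovers.height x :=
  div_nonneg (Real.log_nonneg x.one_le_mulHeight) (Nat.cast_nonneg _)

lemma baseHeight_nonneg (x : ℙ K (Fin (n + 1) → K)) : 0 ≤ MonomialIdeals.baseHeight x :=
  div_nonneg (Real.log_nonneg x.one_le_mulHeight) (Nat.cast_nonneg _)

lemma kcnt (hn : 1 ≤ n) {r : ℕ} (a : Fin r → Fin (n + 1) → K) (ha : ∀ i, a i ≠ 0)
    (hspan : Submodule.span K (Set.range a) = ⊤) (κ c : ℝ) (hκ0 : 0 ≤ κ) (hκ : κ ≤ 1 / 2) :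
    Cnt {x | ∃ B : ℝ, x ∈ KummerCovers.exceptional a κ c B} KummerCovers.height
      ((Module.finrank ℚ K : ℝ) * ((n : ℝ) + 1 - κ)) := by
  intro δ hδ
  obtain ⟨C, hC⟩ := KummerCovers.result K n r hn a ha hspan κ c δ hκ0 hκ hδ
  refine ⟨C, fun t ht => ?_⟩
  obtain ⟨h1, h2⟩ := hC (Real.exp t) (Real.one_le_exp ht)
  have hsub : {x | x ∈ {x | ∃ B : ℝ, x ∈ KummerCovers.exceptional a κ c B} ∧
      KummerCovers.height x ≤ t} ⊆ KummerCovers.exceptional a κ c (Real.exp t) := by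
    rintro x ⟨⟨B, h3, h4, h5⟩, h6⟩
    exact ⟨h3, Real.exp_le_exp.2 h6, h5⟩
  refine ⟨h1.subset hsub, ?_⟩
  have h3 : (({x | x ∈ {x | ∃ B : ℝ, x ∈ KummerCovers.exceptional a κ c B} ∧
      KummerCovers.height x ≤ t}.ncard : ℕ) : ℝ) ≤
      ((KummerCovers.exceptional a κ c (Real.exp t)).ncard : ℝ) := by
    exact_mod_cast Set.ncard_le_ncard hsub h1
  refine h3.trans (h2.trans (le_of_eq ?_))
  rw [← Real.exp_mul]
  congr 2
  ring

lemma fcnt (hn : 1 ≤ n) {q : ℕ} (hq : n + 1 ≤ q) (a : Fin q → Fin (n + 1) → K)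
    (ha : ∀ I : Finset (Fin q), I.card = n + 1 → LinearIndependent K (fun i : I => a i))
    (θ c : ℝ) (hθ : 0 ≤ θ) :
    Cnt {x | ∃ B : ℝ, x ∈ MonomialIdeals.exceptional a θ c B} MonomialIdeals.baseHeight
      ((Module.finrank ℚ K : ℝ) * MonomialIdeals.exponent n q θ) := by
  intro δ hδ
  obtain ⟨C, hC⟩ := MonomialIdeals.result K n q hn hq a ha θ c δ hθ hδ
  refine ⟨C, fun t ht => ?_⟩
  obtain ⟨h1, h2⟩ := hC (Real.exp t) (Real.one_le_exp ht)
  have hsub : {x | x ∈ {x | ∃ B : ℝ, x ∈ MonomialIdeals.exceptional a θ c B} ∧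
      MonomialIdeals.baseHeight x ≤ t} ⊆ MonomialIdeals.exceptional a θ c (Real.exp t) := by
    rintro x ⟨⟨B, h3, h4, h5⟩, h6⟩
    exact ⟨h3, Real.exp_le_exp.2 h6, h5⟩
  refine ⟨h1.subset hsub, ?_⟩
  have h3 : (({x | x ∈ {x | ∃ B : ℝ, x ∈ MonomialIdeals.exceptional a θ c B} ∧
      MonomialIdeals.baseHeight x ≤ t}.ncard : ℕ) : ℝ) ≤
      ((MonomialIdeals.exceptional a θ c (Real.exp t)).ncard : ℝ) := by
    exact_mod_cast Set.ncard_le_ncard hsub h1
  refine h3.trans (h2.trans (le_of_eq ?_))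
  rw [← Real.exp_mul]
  congr 2
  ring

lemma kmono {r : ℕ} (a : Fin r → Fin (n + 1) → K) (κ c c' : ℝ) (h : c' ≤ c)
    (x : ℙ K (Fin (n + 1) → K)) (hx : ∃ B : ℝ, x ∈ KummerCovers.exceptional a κ c B) :
    ∃ B : ℝ, x ∈ KummerCovers.exceptional a κ c' B := by
  obtain ⟨B, h1, h2, m, L, i1, i2, i3, y, t, E, S, h3, h4, h5, h6, h7, h8⟩ := hx
  exact ⟨B, h1, h2, m, L, i1, i2, i3, y, t, E, S, h3, h4, h5, h6, h7, by linarith⟩

lemma fmono {q : ℕ} (a : Fin q → Fin (n + 1) → K) (θ c c' : ℝ) (h : c' ≤ c)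
    (x : ℙ K (Fin (n + 1) → K)) (hx : ∃ B : ℝ, x ∈ MonomialIdeals.exceptional a θ c B) :
    ∃ B : ℝ, x ∈ MonomialIdeals.exceptional a θ c' B := by
  obtain ⟨B, h1, h2, m, L, i1, i2, i3, y, t, E, S, h3, h4, h5, h6, h7, h8⟩ := hx
  exact ⟨B, h1, h2, m, L, i1, i2, i3, y, t, E, S, h3, h4, h5, h6, h7, by linarith⟩

lemma expo_nonneg {r : ℕ} (hn : 1 ≤ n) (hr : n + 1 ≤ r) {κ : ℝ} (hκ : 0 ≤ κ) :
    0 ≤ MonomialIdeals.exponent n r κ := by
  have hn0 : (1 : ℝ) ≤ n := by exact_mod_cast hn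
  have hr0 : (n : ℝ) + 1 ≤ r := by exact_mod_cast hr
  refine le_min (mul_nonneg hκ ?_) (mul_nonneg (by linarith) ?_)
  · have h1 : ((r - n).choose (n + 1) : ℝ) ≤ (r.choose (n + 1) : ℝ) := by
      exact_mod_cast Nat.choose_le_choose (n + 1) (Nat.sub_le r n)
    have h2 : (0 : ℝ) < (r.choose (n + 1) : ℝ) := by
      exact_mod_cast Nat.choose_pos hr
    rw [sub_nonneg, div_le_one h2]
    exact h1
  · rw [sub_nonneg, div_le_one (mul_pos (by linarith) (by linarith))]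
    nlinarith

/-- **Theorem.** Let `K` be a number field, `n ≥ 1`, `s` a map from `ℙ^n(K)` to a metric space and `τ > 0`. (1) For
`0 ≤ κ ≤ 1 / 2` there is a set `E` of Hausdorff dimension at most `[K : ℚ] (n + 1 - κ) / τ` such that for each `z` outside
`E`, ALL families `a` of nonzero linear forms over `K` which span and each `c` only finitely many `x ∈ ℙ^n(K)` off the
hyperplanes with `|z - s(x)| ≤ exp (- τ h(x))` are exceptional: for all others, for ALL `m ≥ 1`, ALL points `P` of the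
Kummer cover `X_m` above `x`, over any number field `L`, ALL monomial ideals `I` and ALL finite sets `S` of primes
`h_K(P) + ∑_{v ∈ S ∪ {∞}} (λ_I - λ_{I⁻})(P, v) + (n + 1 - κ) h(x) ≤ d(L) + ∑_{p ∈ S} log p + c`. (2) For `q ≥ n + 1` and
`θ ≥ 0` there is a set `E` of Hausdorff dimension at most `[K : ℚ] exponent(n, q, θ) / τ` such that for each `z` outside
`E`, ALL families of `q` linear forms over `K`, any `n + 1` of them linearly independent, and each `c` all but finitely many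
`x ∈ ℙ^n(K)` off the hyperplanes with `|z - s(x)| ≤ exp (- τ h(x))` have
`(θ m - q) h(P) + ∑_{v ∈ S ∪ {∞}} (λ_I - λ_{I⁻})(P, v) ≤ d(L) + ∑_{p ∈ S} log p + c` for ALL `m`, `P`, `L`, `I`, `S`. -/
theorem result (K : Type) [Field K] [NumberField K] (n : ℕ) (hn : 1 ≤ n) (M : Type) [MetricSpace M]
    (s : ℙ K (Fin (n + 1) → K) → M) (τ : ℝ) (hτ : 0 < τ) :
    (∀ κ : ℝ, 0 ≤ κ → κ ≤ 1 / 2 →
      ∃ E : Set M, dimH E ≤ ENNReal.ofReal ((Module.finrank ℚ K : ℝ) * ((n : ℝ) + 1 - κ) / τ) ∧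
        ∀ z : M, z ∉ E → ∀ (r : ℕ) (a : Fin r → Fin (n + 1) → K), (∀ i, a i ≠ 0) →
          Submodule.span K (Set.range a) = ⊤ → ∀ c : ℝ, (KClose s a κ c τ z).Finite) ∧
    ∀ (q : ℕ) (θ : ℝ), n + 1 ≤ q → 0 ≤ θ →
      ∃ E : Set M, dimH E ≤
          ENNReal.ofReal ((Module.finrank ℚ K : ℝ) * MonomialIdeals.exponent n q θ / τ) ∧
        ∀ z : M, z ∉ E → ∀ a : Fin q → Fin (n + 1) → K,
          (∀ I : Finset (Fin q), I.card = n + 1 → LinearIndependent K (fun i : I => a i)) →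
          ∀ c : ℝ, (FClose s a θ c τ z).Finite := by
  have hK : Countable K := (Module.finBasis ℚ K).equivFun.injective.countable
  have hd : (0 : ℝ) ≤ (Module.finrank ℚ K : ℝ) := Nat.cast_nonneg _
  refine ⟨fun κ hκ0 hκ => ?_, fun q θ hq hθ => ?_⟩
  · have hn0 : (0 : ℝ) ≤ (n : ℝ) := Nat.cast_nonneg n
    obtain ⟨E, hE, hE2⟩ := pos_dim
      (I := {p : Σ r : ℕ, (Fin r → Fin (n + 1) → K) // (∀ i, p.2 i ≠ 0) ∧
        Submodule.span K (Set.range p.2) = ⊤} × ℕ)
      (fun i => {x | ∃ B : ℝ, x ∈ KummerCovers.exceptional i.1.1.2 κ (-(i.2 : ℝ)) B})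
      KummerCovers.height (fun _ x _ => height_nonneg x)
      (mul_nonneg hd (by linarith) : (0 : ℝ) ≤ (Module.finrank ℚ K : ℝ) * ((n : ℝ) + 1 - κ)) hτ
      (fun i => kcnt hn i.1.1.2 i.1.2.1 i.1.2.2 κ _ hκ0 hκ) s
    refine ⟨E, hE, fun z hz r a ha hspan c => ?_⟩
    obtain ⟨k, hk⟩ := exists_nat_ge (-c)
    refine (hE2 z hz (⟨⟨r, a⟩, ha, hspan⟩, k)).subset ?_
    rintro x ⟨h1, h2⟩
    exact ⟨kmono a κ c _ (by linarith) x h1, h2⟩
  · obtain ⟨E, hE, hE2⟩ := pos_dim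
      (I := {a : Fin q → Fin (n + 1) → K // ∀ I : Finset (Fin q), I.card = n + 1 →
        LinearIndependent K (fun i : I => a i)} × ℕ)
      (fun i => {x | ∃ B : ℝ, x ∈ MonomialIdeals.exceptional i.1.1 θ (-(i.2 : ℝ)) B})
      MonomialIdeals.baseHeight (fun _ x _ => baseHeight_nonneg x)
      (mul_nonneg hd (expo_nonneg hn hq hθ)) hτ
      (fun i => fcnt hn hq i.1.1 i.1.2 θ _ hθ) s
    refine ⟨E, hE, fun z hz a ha c => ?_⟩
    obtain ⟨k, hk⟩ := exists_nat_ge (-c)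
    refine (hE2 z hz (⟨a, ha⟩, k)).subset ?_
    rintro x ⟨h1, h2⟩
    exact ⟨fmono a θ c _ (by linarith) x h1, h2⟩

end Pool.Agent.Results.MP_8865d3_nt.KummerNearTargets
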